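import Pool.Agent.H51.MFL.S

/-!
# LEN: members of chains Poisson commute (Lenard's argument)
-/

set_option autoImplicit false

open Module MvPolynomial

namespace Pool.MFL

namespace LenAux

variable {R κ : Type} [CommRing R] [Fintype κ]

/-- The bracket given by constants. -/
noncomputable def pF (α : κ → κ → R) (Φ Ψ : MvPolynomial κ R) : MvPolynomial κ R :=
  ∑ z, pderiv z Φ * dF α z Ψ

theorem pF_skew (α : κ → κ → R) (hα : ∀ i j, α i j = -α j i) (Φ Ψ : MvPolynomial κ R) :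
    pF α Φ Ψ = -pF α Ψ Φ := by
  unfold pF dF
  simp only [Finset.mul_sum]
  rw [Finset.sum_comm, ← Finset.sum_neg_distrib]
  refine Finset.sum_congr rfl fun z _ => ?_
  rw [← Finset.sum_neg_distrib]
  refine Finset.sum_congr rfl fun j _ => ?_
  rw [hα j z, map_neg]
  ring

theorem pbR_skew (c : κ → κ → κ → R) (hc : ∀ i j k, c i j k = -c j i k)
    (Φ Ψ : MvPolynomial κ R) : pbR c Φ Ψ = -pbR c Ψ Φ := by
  unfold pbR dA
  simp only [Finset.mul_sum]
  rw [Finset.sum_comm, ← Finset.sum_neg_distrib]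
  refine Finset.sum_congr rfl fun z _ => ?_
  rw [← Finset.sum_neg_distrib]
  refine Finset.sum_congr rfl fun j _ => ?_
  have h : (∑ k, C (c j z k) * X k : MvPolynomial κ R) = -∑ k, C (c z j k) * X k := by
    rw [← Finset.sum_neg_distrib]
    refine Finset.sum_congr rfl fun k _ => ?_
    rw [hc j z k, map_neg]
    ring
  rw [h]
  ring

theorem step (c : κ → κ → κ → R) (α : κ → κ → R) (N : ℕ) (Ψ : ℕ → MvPolynomial κ R)
    (h : Chn c α N Ψ) (Φ : MvPolynomial κ R) (j : ℕ) (hj : 1 ≤ j) (hjN : j < N) :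
    pbR c Φ (Ψ j) = -pF α Φ (Ψ (j + 1)) := by
  unfold pbR pF
  rw [← Finset.sum_neg_distrib]
  refine Finset.sum_congr rfl fun z _ => ?_
  have h2 : dA c z (Ψ j) = -dF α z (Ψ (j + 1)) := eq_neg_of_add_eq_zero_left (h.step j hj hjN z)
  rw [h2]
  ring

end LenAux

open LenAux in
theorem t_len : LENStmt := by
  intro R κ _ _ c α N Φ Ψ hc hα hΦ hΨ i
  induction i with
  | zero => intro j hi; omega
  | succ i ih =>
    intro j _ hj hN
    have h1 : pbR c (Φ (i + 1)) (Ψ j) = pF α (Ψ (j + 1)) (Φ (i + 1)) := by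
      rw [step c α N Ψ hΨ (Φ (i + 1)) j hj (by omega), pF_skew α hα, neg_neg]
    rcases Nat.eq_zero_or_pos i with h0 | h0
    · subst h0
      rw [h1]
      unfold pF
      refine Finset.sum_eq_zero fun z _ => ?_
      rw [hΦ.one z, mul_zero]
    · have h2 : pbR c (Ψ (j + 1)) (Φ i) = -pF α (Ψ (j + 1)) (Φ (i + 1)) :=
        step c α N Φ hΦ (Ψ (j + 1)) i h0 (by omega)
      have h3 : pbR c (Φ i) (Ψ (j + 1)) = 0 := ih (j + 1) h0 (by omega) (by omega)
      rw [pbR_skew c hc, h3, neg_zero] at h2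
      rw [h1, ← neg_eq_zero, ← h2]

end Pool.MFL
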