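import Pool.Agent.H51.MFL.S

/-!
# POX: the Poisson bracket of elements of `S(V) + S(V)·h`
-/

set_option autoImplicit false

open Module MvPolynomial

namespace Pool.MFL

namespace PoxAux

variable {R σ τ : Type} [CommRing R] [Fintype σ] [Fintype τ]

omit [Fintype σ] [Fintype τ] in
theorem pd_inl_rename (l : σ) (φ : MvPolynomial σ R) :
    pderiv (Sum.inl l : σ ⊕ τ) (rename Sum.inl φ) = rename Sum.inl (pderiv l φ) := by
  classical
  exact pderiv_rename Sum.inl_injective l φ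

omit [Fintype σ] [Fintype τ] in
theorem pd_inr_rename (i : τ) (φ : MvPolynomial σ R) :
    pderiv (Sum.inr i : σ ⊕ τ) (rename Sum.inl φ) = 0 := by
  classical
  induction φ using MvPolynomial.induction_on with
  | C a => simp
  | add p q hp hq => simp [hp, hq]
  | mul_X p n hp =>
    simp [hp, Derivation.leibniz, pderiv_X]

omit [Fintype σ] in
theorem pd_inl (l : σ) (P : LmR R σ τ) :
    pderiv (Sum.inl l : σ ⊕ τ) (iLR P) =
      rename Sum.inl (pderiv l P.1) + ∑ i, rename Sum.inl (pderiv l (P.2 i)) * X (Sum.inr i) := by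
  classical
  unfold iLR
  rw [map_add, pd_inl_rename, map_sum]
  congr 1
  refine Finset.sum_congr rfl fun i _ => ?_
  rw [Derivation.leibniz, pd_inl_rename]
  simp [pderiv_X, mul_comm]

omit [Fintype σ] in
theorem pd_inr (i : τ) (P : LmR R σ τ) :
    pderiv (Sum.inr i : σ ⊕ τ) (iLR P) = rename Sum.inl (P.2 i) := by
  classical
  unfold iLR
  rw [map_add, pd_inr_rename, map_sum, zero_add]
  rw [Finset.sum_eq_single i]
  · rw [Derivation.leibniz, pd_inr_rename]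
    simp
  · intro j _ hj
    rw [Derivation.leibniz, pd_inr_rename]
    have : (Sum.inr j : σ ⊕ τ) ≠ Sum.inr i := fun h => hj (Sum.inr_injective h)
    simp [pderiv_X_of_ne this]
  · intro h
    exact absurd (Finset.mem_univ i) h

theorem dsum {ι A : Type} [CommRing A] [Algebra R A] (s : Finset ι) (D : ι → Derivation R A A)
    (φ : A) : (∑ l ∈ s, D l) φ = ∑ l ∈ s, D l φ := by
  classical
  induction s using Finset.induction_on with
  | empty => simp
  | insert a s ha ih => rw [Finset.sum_insert ha, Finset.sum_insert ha, Derivation.add_apply, ih]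

omit [Fintype τ] in
theorem DC_eq (c : σ ⊕ τ → σ ⊕ τ → σ ⊕ τ → R) (i : τ) (φ : MvPolynomial σ R) :
    DC c i φ = ∑ l, (∑ m, C (c (Sum.inr i) (Sum.inl l) (Sum.inl m)) * X m) * pderiv l φ := by
  classical
  have h : DC c i = ∑ l, (∑ m, C (c (Sum.inr i) (Sum.inl l) (Sum.inl m)) * X m) •
      (pderiv l : Derivation R (MvPolynomial σ R) (MvPolynomial σ R)) := by
    refine MvPolynomial.derivation_ext fun l => ?_
    unfold DC
    rw [mkDerivation_X, dsum]
    simp only [Derivation.coe_smul, Pi.smul_apply, smul_eq_mul]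
    have h2 : ∑ x, (∑ m, C (c (Sum.inr i) (Sum.inl x) (Sum.inl m)) * X m) *
        pderiv x (X l : MvPolynomial σ R) =
        ∑ m, C (c (Sum.inr i) (Sum.inl l) (Sum.inl m)) * X m := by
      rw [Finset.sum_eq_single l]
      · rw [pderiv_X_self, mul_one]
      · intro m _ hm
        rw [pderiv_X_of_ne (Ne.symm hm), mul_zero]
      · intro h
        exact absurd (Finset.mem_univ l) h
    rw [h2]
  rw [h, dsum]
  simp only [Derivation.coe_smul, Pi.smul_apply, smul_eq_mul]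

/-- The polynomial `∑ c z j k X k`. -/
noncomputable def lin (c : σ ⊕ τ → σ ⊕ τ → σ ⊕ τ → R) (z j : σ ⊕ τ) : MvPolynomial (σ ⊕ τ) R :=
  ∑ k, C (c z j k) * X k

theorem lin_ll (c : σ ⊕ τ → σ ⊕ τ → σ ⊕ τ → R) (h : AdC c) (l m : σ) :
    lin c (Sum.inl l) (Sum.inl m) = 0 := by
  unfold lin
  refine Finset.sum_eq_zero fun k _ => ?_
  rw [h.ab, map_zero, zero_mul]

theorem lin_rl (c : σ ⊕ τ → σ ⊕ τ → σ ⊕ τ → R) (h : AdC c) (i : τ) (l : σ) :
    lin c (Sum.inr i) (Sum.inl l) =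
      rename Sum.inl (∑ m, C (c (Sum.inr i) (Sum.inl l) (Sum.inl m)) * X m) := by
  unfold lin
  rw [Fintype.sum_sum_type, map_sum]
  rw [Finset.sum_eq_zero (s := (Finset.univ : Finset τ))]
  · rw [add_zero]
    refine Finset.sum_congr rfl fun m _ => ?_
    rw [map_mul, rename_C, rename_X]
  · intro k _
    rw [h.idl, map_zero, zero_mul]

theorem lin_skew (c : σ ⊕ τ → σ ⊕ τ → σ ⊕ τ → R) (h : AdC c) (z j : σ ⊕ τ) :
    lin c z j = -lin c j z := by
  unfold lin
  rw [← Finset.sum_neg_distrib]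
  refine Finset.sum_congr rfl fun k _ => ?_
  rw [h.skew z j k, map_neg]
  ring

theorem lin_rr (c : σ ⊕ τ → σ ⊕ τ → σ ⊕ τ → R) (i j : τ) :
    lin c (Sum.inr i) (Sum.inr j) =
      rename Sum.inl (bC c i j) + ∑ k, C (c (Sum.inr i) (Sum.inr j) (Sum.inr k)) * X (Sum.inr k) := by
  unfold lin bC
  rw [Fintype.sum_sum_type, map_sum]
  congr 1
  refine Finset.sum_congr rfl fun m _ => ?_
  rw [map_mul, rename_C, rename_X]

theorem pbR_eq (c : σ ⊕ τ → σ ⊕ τ → σ ⊕ τ → R) (Φ Ψ : MvPolynomial (σ ⊕ τ) R) :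
    pbR c Φ Ψ = ∑ z, ∑ j, lin c z j * (pderiv z Φ * pderiv j Ψ) := by
  unfold pbR dA lin
  refine Finset.sum_congr rfl fun z _ => ?_
  rw [Finset.mul_sum]
  refine Finset.sum_congr rfl fun j _ => ?_
  ring

/-- `D_i` applied to an element of `S(V) + S(V)·h`. -/
theorem half (c : σ ⊕ τ → σ ⊕ τ → σ ⊕ τ → R) (h : AdC c) (i : τ) (Q : LmR R σ τ) :
    ∑ l, lin c (Sum.inr i) (Sum.inl l) * pderiv (Sum.inl l : σ ⊕ τ) (iLR Q) =
      rename Sum.inl (DC c i Q.1) + ∑ k, rename Sum.inl (DC c i (Q.2 k)) * X (Sum.inr k) := by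
  simp only [lin_rl c h, pd_inl, DC_eq, map_sum (rename (Sum.inl : σ → σ ⊕ τ)), map_mul]
  simp only [mul_add, Finset.sum_add_distrib]
  congr 1
  simp only [Finset.mul_sum, Finset.sum_mul]
  rw [Finset.sum_comm]
  refine Finset.sum_congr rfl fun k _ => ?_
  refine Finset.sum_congr rfl fun l _ => ?_
  refine Finset.sum_congr rfl fun m _ => ?_
  ring

theorem half' (c : σ ⊕ τ → σ ⊕ τ → σ ⊕ τ → R) (h : AdC c) (P Q : LmR R σ τ) :
    ∑ i, ∑ l, lin c (Sum.inr i) (Sum.inl l) *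
      (pderiv (Sum.inr i) (iLR P) * pderiv (Sum.inl l) (iLR Q)) =
      rename Sum.inl (dvC c P Q.1) + ∑ k, rename Sum.inl (dvC c P (Q.2 k)) * X (Sum.inr k) := by
  have h1 : ∀ i : τ, ∑ l, lin c (Sum.inr i) (Sum.inl l) *
      (pderiv (Sum.inr i) (iLR P) * pderiv (Sum.inl l) (iLR Q)) =
      rename Sum.inl (P.2 i) * (rename Sum.inl (DC c i Q.1) +
        ∑ k, rename Sum.inl (DC c i (Q.2 k)) * X (Sum.inr k)) := by
    intro i
    rw [← half c h i Q, Finset.mul_sum]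
    refine Finset.sum_congr rfl fun l _ => ?_
    rw [pd_inr]
    ring
  rw [Finset.sum_congr rfl fun i _ => h1 i]
  simp only [dvC, map_sum (rename (Sum.inl : σ → σ ⊕ τ)), map_mul, mul_add,
    Finset.sum_add_distrib, Finset.mul_sum, Finset.sum_mul]
  congr 1
  rw [Finset.sum_comm]
  refine Finset.sum_congr rfl fun k _ => ?_
  refine Finset.sum_congr rfl fun i _ => ?_
  ring

theorem rr0 (c : σ ⊕ τ → σ ⊕ τ → σ ⊕ τ → R) (P Q : LmR R σ τ) (i j : τ) :
    lin c (Sum.inr i) (Sum.inr j) *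
      (pderiv (Sum.inr i) (iLR P) * pderiv (Sum.inr j) (iLR Q)) =
      rename Sum.inl (P.2 i * Q.2 j * bC c i j) +
        ∑ k, rename Sum.inl (C (c (Sum.inr i) (Sum.inr j) (Sum.inr k)) * (P.2 i * Q.2 j)) *
          X (Sum.inr k) := by
  rw [lin_rr, pd_inr, pd_inr, add_mul, Finset.sum_mul]
  congr 1
  · rw [map_mul, map_mul]
    ring
  · refine Finset.sum_congr rfl fun k _ => ?_
    rw [map_mul, map_mul, rename_C]
    ring

theorem rr (c : σ ⊕ τ → σ ⊕ τ → σ ⊕ τ → R) (P Q : LmR R σ τ) :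
    ∑ i, ∑ j, lin c (Sum.inr i) (Sum.inr j) *
      (pderiv (Sum.inr i) (iLR P) * pderiv (Sum.inr j) (iLR Q)) =
      rename Sum.inl (∑ i, ∑ j, P.2 i * Q.2 j * bC c i j) +
        ∑ k, rename Sum.inl (∑ i, ∑ j, C (c (Sum.inr i) (Sum.inr j) (Sum.inr k)) *
          (P.2 i * Q.2 j)) * X (Sum.inr k) := by
  have h1 : ∑ k, rename (Sum.inl : σ → σ ⊕ τ) (∑ i, ∑ j,
      C (c (Sum.inr i) (Sum.inr j) (Sum.inr k)) * (P.2 i * Q.2 j)) * X (Sum.inr k) =
      ∑ i, ∑ j, ∑ k, rename (Sum.inl : σ → σ ⊕ τ)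
        (C (c (Sum.inr i) (Sum.inr j) (Sum.inr k)) * (P.2 i * Q.2 j)) *
          (X (Sum.inr k) : MvPolynomial (σ ⊕ τ) R) := by
    have h2 : ∀ k : τ, rename (Sum.inl : σ → σ ⊕ τ) (∑ i, ∑ j,
        C (c (Sum.inr i) (Sum.inr j) (Sum.inr k)) * (P.2 i * Q.2 j)) * X (Sum.inr k) =
        ∑ i, ∑ j, rename (Sum.inl : σ → σ ⊕ τ)
          (C (c (Sum.inr i) (Sum.inr j) (Sum.inr k)) * (P.2 i * Q.2 j)) *
            (X (Sum.inr k) : MvPolynomial (σ ⊕ τ) R) := by
      intro k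
      rw [map_sum, Finset.sum_mul]
      refine Finset.sum_congr rfl fun i _ => ?_
      rw [map_sum, Finset.sum_mul]
    rw [Finset.sum_congr rfl fun k _ => h2 k, Finset.sum_comm]
    refine Finset.sum_congr rfl fun i _ => ?_
    rw [Finset.sum_comm]
  rw [h1, map_sum, ← Finset.sum_add_distrib]
  refine Finset.sum_congr rfl fun i _ => ?_
  rw [map_sum, ← Finset.sum_add_distrib]
  refine Finset.sum_congr rfl fun j _ => ?_
  exact rr0 c P Q i j

theorem main (c : σ ⊕ τ → σ ⊕ τ → σ ⊕ τ → R) (h : AdC c) (P Q : LmR R σ τ) :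
    pbR c (iLR P) (iLR Q) = iLR (brC c P Q) := by
  rw [pbR_eq]
  simp only [Fintype.sum_sum_type, Finset.sum_add_distrib, lin_ll c h, zero_mul,
    Finset.sum_const_zero, zero_add]
  have h1 : ∑ l, ∑ i, lin c (Sum.inl l) (Sum.inr i) *
      (pderiv (Sum.inl l) (iLR P) * pderiv (Sum.inr i) (iLR Q)) =
      -(rename Sum.inl (dvC c Q P.1) + ∑ k, rename Sum.inl (dvC c Q (P.2 k)) * X (Sum.inr k)) := by
    rw [← half' c h Q P, Finset.sum_comm, ← Finset.sum_neg_distrib]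
    refine Finset.sum_congr rfl fun i _ => ?_
    rw [← Finset.sum_neg_distrib]
    refine Finset.sum_congr rfl fun l _ => ?_
    rw [lin_skew c h (Sum.inl l) (Sum.inr i)]
    ring
  rw [h1, half' c h P Q, rr c P Q]
  have h3 : ∀ k, (brC c P Q).2 k = (∑ i, ∑ j, C (c (Sum.inr i) (Sum.inr j) (Sum.inr k)) *
      (P.2 i * Q.2 j)) + dvC c P (Q.2 k) - dvC c Q (P.2 k) := fun k => rfl
  have h4 : (brC c P Q).1 = (∑ i, ∑ j, P.2 i * Q.2 j * bC c i j) + dvC c P Q.1 - dvC c Q P.1 :=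
    rfl
  have h5 : iLR (brC c P Q) = rename Sum.inl (brC c P Q).1 +
    ∑ k, rename Sum.inl ((brC c P Q).2 k) * X (Sum.inr k) := rfl
  have h6 : ∑ k, rename (Sum.inl : σ → σ ⊕ τ) ((brC c P Q).2 k) *
      (X (Sum.inr k) : MvPolynomial (σ ⊕ τ) R) =
      ∑ k, rename (Sum.inl : σ → σ ⊕ τ) (∑ i, ∑ j,
        C (c (Sum.inr i) (Sum.inr j) (Sum.inr k)) * (P.2 i * Q.2 j)) * X (Sum.inr k) +
      ∑ k, rename (Sum.inl : σ → σ ⊕ τ) (dvC c P (Q.2 k)) * X (Sum.inr k) -
      ∑ k, rename (Sum.inl : σ → σ ⊕ τ) (dvC c Q (P.2 k)) * X (Sum.inr k) := by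
    rw [← Finset.sum_add_distrib, ← Finset.sum_sub_distrib]
    refine Finset.sum_congr rfl fun k _ => ?_
    rw [h3 k, map_sub, map_add, sub_mul, add_mul]
  rw [h5, h4, h6, map_sub, map_add]
  ring

omit [Fintype σ] in
theorem iLR_inj : Function.Injective (iLR : LmR R σ τ → MvPolynomial (σ ⊕ τ) R) := by
  intro P Q hPQ
  have h2 : P.2 = Q.2 := by
    funext i
    have h := congrArg (pderiv (Sum.inr i : σ ⊕ τ)) hPQ
    rw [pd_inr, pd_inr] at h
    exact rename_injective _ Sum.inl_injective h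
  refine Prod.ext ?_ h2
  have h := hPQ
  unfold iLR at h
  rw [h2] at h
  exact rename_injective _ Sum.inl_injective (add_right_cancel h)

end PoxAux

theorem t_pox : POXStmt := by
  intro R σ τ _ _ _ c h
  exact ⟨PoxAux.iLR_inj, PoxAux.main c h⟩

end Pool.MFL
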